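import Pool.Agent.MP_bd94e8_al.H83A.Cor

/-!
The unramified extension given by a polynomial, and the splitting of a corner over it.
-/

set_option autoImplicit false
set_option linter.unusedSectionVars false

namespace Pool.Agent.MP_bd94e8_al.H83A

open Module Function Polynomial IsLocalRing TensorProduct H89

namespace AdjA

section
variable {C : Type} [CommRing C] [IsArtinianRing C] [IsLocalRing C]

theorem nil_of_map {p : C[X]} (h : p.map (residue C) = 0) : IsNilpotent p := by
  rw [Polynomial.isNilpotent_iff]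
  intro i
  refine max_nil C ?_
  rw [← residue_eq_zero_iff, ← coeff_map, h, coeff_zero]

variable {S : Type} [CommRing S] [Algebra C S] {θ : S} {g p : C[X]}

theorem nil_of_dvd (hθ : aeval θ g = 0) (h : g.map (residue C) ∣ p.map (residue C)) :
    IsNilpotent (aeval θ p) := by
  obtain ⟨q, hq⟩ := h
  obtain ⟨q, rfl⟩ := map_surjective _ (residue_surjective (R := C)) q
  have h1 : IsNilpotent (p - g * q) :=
    nil_of_map (by rw [Polynomial.map_sub, Polynomial.map_mul, hq, sub_self])
  have h2 := h1.map (aeval θ)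
  rwa [map_sub, map_mul, hθ, zero_mul, sub_zero] at h2

theorem unit_of_coprime (hθ : aeval θ g = 0)
    (h : IsCoprime (g.map (residue C)) (p.map (residue C))) : IsUnit (aeval θ p) := by
  obtain ⟨a, b, hab⟩ := h
  obtain ⟨a, rfl⟩ := map_surjective _ (residue_surjective (R := C)) a
  obtain ⟨b, rfl⟩ := map_surjective _ (residue_surjective (R := C)) b
  have h1 : IsNilpotent (a * g + b * p - 1) :=
    nil_of_map (by
      rw [Polynomial.map_sub, Polynomial.map_add, Polynomial.map_mul, Polynomial.map_mul, hab,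
        Polynomial.map_one, sub_self])
  have h2 := (h1.map (aeval θ)).isUnit_add_one
  rw [map_sub, map_add, map_mul, map_mul, hθ, mul_zero, zero_add, map_one, sub_add_cancel] at h2
  exact isUnit_of_mul_isUnit_right h2

end

section
variable {S R : Type} [CommRing S] [Ring R] [Algebra S R] {E β : R}

theorem ev_mul (hE : IsIdempotentElem E) (hc : Commute β E) (P Q : S[X]) :
    aeval β P * E * (aeval β Q * E) = aeval β (P * Q) * E := by
  have h : Commute (aeval β Q) E := by
    induction Q using Polynomial.induction_on' with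
    | add p q hp hq => rw [map_add]; exact hp.add_left hq
    | monomial n a =>
      rw [aeval_monomial]
      exact (Algebra.commute_algebraMap_left a E).mul_left (hc.pow_left n)
  rw [map_mul, mul_assoc, ← mul_assoc E, ← h.eq, mul_assoc, hE.eq, mul_assoc]

theorem ev_left (hE : IsIdempotentElem E) (hc : Commute β E) (Q : S[X]) :
    E * (aeval β Q * E) = aeval β Q * E := by
  have := ev_mul hE hc 1 Q
  rwa [map_one, one_mul, one_mul] at this

theorem ev_nil (hE : IsIdempotentElem E) (hc : Commute β E) {Q : S[X]}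
    (h : IsNilpotent (aeval β Q * E)) : ∃ N : ℕ, aeval β (Q ^ N) * E = 0 := by
  obtain ⟨n, hn⟩ := h
  have key : ∀ m : ℕ, (aeval β Q * E) ^ m * E = aeval β (Q ^ m) * E := by
    intro m
    induction m with
    | zero => simp
    | succ m ih => rw [pow_succ', mul_assoc, ih, ev_mul hE hc, pow_succ']
  exact ⟨n, by rw [← key, hn, zero_mul]⟩

theorem ev_cancel (hE : IsIdempotentElem E) (hc : Commute β E) {P : S[X]} {u : R}
    (hu : u * (aeval β P * E) = E) (n : ℕ) :
    ∀ Q : S[X], aeval β (P ^ n * Q) * E = 0 → aeval β Q * E = 0 := by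
  induction n with
  | zero => intro Q h; rwa [pow_zero, one_mul] at h
  | succ n ih =>
    intro Q h
    rw [pow_succ, mul_assoc] at h
    have h1 := ih _ h
    rw [← ev_left hE hc, ← hu, mul_assoc, hu, ev_mul hE hc, h1, mul_zero]

end

section
variable {C C' A : Type} [CommRing C] [CommRing C'] [Algebra C C'] [Ring A] [Algebra C A]

theorem expand {ι : Type} [Fintype ι] (w : Basis ι C C') (Q : C'[X]) :
    ∃ P : ι → C[X], Q = ∑ i, Polynomial.C (w i) * (P i).map (algebraMap C C') := by
  induction Q using Polynomial.induction_on' with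
  | add p q hp hq =>
    obtain ⟨P, rfl⟩ := hp
    obtain ⟨P', rfl⟩ := hq
    exact ⟨P + P', by simp [mul_add, Finset.sum_add_distrib]⟩
  | monomial n a =>
    refine ⟨fun i => monomial n (w.repr a i), ?_⟩
    conv_lhs => rw [← w.sum_repr a, map_sum]
    refine Finset.sum_congr rfl fun i _ => ?_
    rw [Polynomial.map_monomial, C_mul_monomial, Algebra.smul_def, mul_comm]

theorem ev_map (b e : A) (P : C[X]) :
    aeval ((1 : C') ⊗ₜ[C] b : C' ⊗[C] A) (P.map (algebraMap C C')) * (1 : C') ⊗ₜ[C] e
      = (1 : C') ⊗ₜ[C] (aeval b P * e) := by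
  rw [aeval_map_algebraMap, ← Algebra.TensorProduct.includeRight_apply b, aeval_algHom_apply,
    Algebra.TensorProduct.includeRight_apply, Algebra.TensorProduct.tmul_mul_tmul, mul_one]

theorem indep {ι : Type} [Fintype ι] (w : Basis ι C C') (x : ι → A)
    (h : ∑ i, w i ⊗ₜ[C] x i = 0) (j : ι) : x j = 0 := by
  classical
  have := congrArg ((TensorProduct.lid C A).toLinearMap ∘ₗ (w.coord j).rTensor A) h
  simpa [Finsupp.single_apply] using this

end

end AdjA

open AdjA

theorem adj : SAdj := by
  intro C _ _ _ g hg hi hs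
  have := hg.free_adjoinRoot
  have := hg.finite_adjoinRoot
  have hθ : aeval (AdjoinRoot.root g) g = 0 := by
    rw [AdjoinRoot.aeval_eq, AdjoinRoot.mk_self]
  have : Fact (Irreducible (g.map (residue C))) := ⟨hi⟩
  have : Nontrivial (AdjoinRoot g) :=
    (AdjoinRoot.map (residue C) g (g.map (residue C)) dvd_rfl).domain_nontrivial
  have hl : IsLocalRing (AdjoinRoot g) := by
    refine IsLocalRing.of_isUnit_or_isUnit_one_sub_self fun a => ?_
    obtain ⟨p, rfl⟩ := AdjoinRoot.mk_surjective a
    rw [← AdjoinRoot.aeval_eq]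
    by_cases h : g.map (residue C) ∣ p.map (residue C)
    · exact .inr (nil_of_dvd hθ h).isUnit_one_sub
    · exact .inl (unit_of_coprime hθ (hi.coprime_iff_not_dvd.2 h))
  refine ⟨AdjoinRoot g, inferInstance, artin C _, hl, inferInstance, inferInstance, inferInstance,
    AdjoinRoot.root g, ?_, hθ⟩
  have hu : IsUnit (aeval (AdjoinRoot.root g) (derivative g)) :=
    unit_of_coprime hθ (by rw [← derivative_map]; exact hs)
  rw [Algebra.FormallyUnramified.iff_comp_injective]
  intro B _ _ I hI f1 f2 h
  refine AdjoinRoot.algHom_ext ?_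
  have h1 : f1 (AdjoinRoot.root g) - f2 (AdjoinRoot.root g) ∈ I :=
    Ideal.Quotient.eq.1 (DFunLike.congr_fun h (AdjoinRoot.root g))
  have h2 := aeval_add_of_sq_eq_zero g (f2 (AdjoinRoot.root g)) _
    (hI.le (Ideal.pow_mem_pow h1 2))
  rw [add_sub_cancel, aeval_algHom_apply, aeval_algHom_apply, aeval_algHom_apply, hθ, map_zero,
    map_zero, zero_add] at h2
  exact sub_eq_zero.1 ((hu.map f2).mul_right_eq_zero.1 h2.symm)

theorem split : SSplit := by
  intro C C' A _ _ _ _ _ _ _ _ _ _ _ e b g θ he hb hg hd hs hn hQ hθ hL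
  let ψ : C →+* ResidueField C' := (residue C').comp (algebraMap C C')
  have : IsLocalHom ψ := ⟨fun a ha => by
    by_contra h
    exact ha.ne_zero ((max_nil C ((mem_maximalIdeal a).2 h)).map ψ).eq_zero⟩
  have hψ : ∀ p : C[X], (p.map (algebraMap C C')).map (residue C')
      = (p.map (residue C)).map (ResidueField.lift ψ) := fun p => by
    rw [Polynomial.map_map, Polynomial.map_map, ResidueField.lift_comp_residue]
  have hE : IsIdempotentElem ((1 : C') ⊗ₜ[C] e : C' ⊗[C] A) := by
    rw [IsIdempotentElem, Algebra.TensorProduct.tmul_mul_tmul, mul_one, he.eq]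
  have hc : Commute ((1 : C') ⊗ₜ[C] b : C' ⊗[C] A) ((1 : C') ⊗ₜ[C] e) := by
    rw [Commute, SemiconjBy, Algebra.TensorProduct.tmul_mul_tmul,
      Algebra.TensorProduct.tmul_mul_tmul, cn_left he hb, cn_right he hb]
  have key : ∀ Q : C'[X], aeval ((1 : C') ⊗ₜ[C] b : C' ⊗[C] A) Q * (1 : C') ⊗ₜ[C] e = 0 →
      (g.map (algebraMap C C')).map (residue C') ∣ Q.map (residue C') := by
    intro Q h
    obtain ⟨P, rfl⟩ := expand (Module.Free.chooseBasis C C') Q
    have h1 : ∀ j, aeval b (P j) * e = 0 := indep (Module.Free.chooseBasis C C') _ (by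
      rw [← h, map_sum, Finset.sum_mul]
      refine Finset.sum_congr rfl fun i _ => ?_
      rw [map_mul, mul_assoc, ev_map, aeval_C, Algebra.TensorProduct.algebraMap_apply,
        Algebra.TensorProduct.tmul_mul_tmul, one_mul]
      simp)
    rw [Polynomial.map_sum]
    refine Finset.dvd_sum fun i _ => ?_
    rw [Polynomial.map_mul, hψ, hψ]
    exact (Polynomial.map_dvd _ (hQ _ (h1 i ▸ IsNilpotent.zero))).mul_left _
  obtain ⟨h, hh⟩ : X - Polynomial.C θ ∣ g.map (algebraMap C C') := by
    rw [dvd_iff_isRoot, IsRoot, eval_map_algebraMap, hθ]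
  have hG : (g.map (algebraMap C C')).map (residue C')
      = (X - Polynomial.C (residue C' θ)) * h.map (residue C') := by
    rw [hh, Polynomial.map_mul, Polynomial.map_sub, map_X, map_C]
  have hsep : IsCoprime (X - Polynomial.C (residue C' θ)) (h.map (residue C')) := by
    refine Separable.isCoprime ?_
    rw [← hG, hψ]
    exact hs.map
  rcases hL.nil_or (b := aeval ((1 : C') ⊗ₜ[C] b : C' ⊗[C] A) (X - Polynomial.C θ)
      * (1 : C') ⊗ₜ[C] e) (by rw [ev_left hE hc, mul_assoc, hE.eq]) with h1 | ⟨u, -, hu, -⟩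
  · obtain ⟨N, hN⟩ := ev_nil hE hc h1
    have h2 := key _ hN
    rw [hG, Polynomial.map_pow, Polynomial.map_sub, map_X, map_C] at h2
    have h3 : IsUnit (h.map (residue C')) :=
      (hsep.symm.pow_right (n := N)).isUnit_of_dvd (dvd_of_mul_left_dvd h2)
    have h4 := congrArg natDegree hG
    rw [(hg.map _).natDegree_map, hg.natDegree_map,
      natDegree_mul (X_sub_C_ne_zero _) h3.ne_zero, natDegree_X_sub_C,
      natDegree_eq_zero_of_isUnit h3] at h4
    omega
  · have h1 : IsNilpotent (aeval ((1 : C') ⊗ₜ[C] b : C' ⊗[C] A) (g.map (algebraMap C C'))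
        * (1 : C') ⊗ₜ[C] e) := by
      rw [ev_map]
      exact hn.map (Algebra.TensorProduct.includeRight : A →ₐ[C] C' ⊗[C] A)
    obtain ⟨N, hN⟩ := ev_nil hE hc h1
    rw [hh, mul_pow] at hN
    have h2 := key _ (ev_cancel hE hc hu N _ hN)
    rw [hG, Polynomial.map_pow] at h2
    exact not_isUnit_X_sub_C _
      ((hsep.pow_right (n := N)).isUnit_of_dvd (dvd_of_mul_right_dvd h2))

end Pool.Agent.MP_bd94e8_al.H83A
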